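import Mathlib
import Pool.Agent.H175.IE.MainRate
import Pool.Graph.R_seed8.Results.MP_c890a7_co.BalanceUpperBound

/-!
# Posets with a long chain as a component are far from the minimum `δ_w`

Let `M` be an autonomous subset of a finite poset `P` (every element outside `M` has the same relation
to all elements of `M`; for instance `M = P`) which is the disjoint sum of a chain `C` with `k` elements
and an ARBITRARY nonempty poset `D` (no element of `C` is comparable to an element of `D`).  Then
`δ(P) ≥ 1/2 - 1/√(2 k)`.  The width of `P` and the poset `D` are arbitrary.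

So for every `w ≥ 1` all posets (of width `w + 1` or of any other width) with such a chain `C` with at
least `288 w²` elements satisfy `δ(P) ≥ δ_w + 1/(24 w)`: the step `δ_w < δ_{w+1}` of the question holds
for them with an explicit margin, and the posets of width `w` with `δ(P) < δ_w + 1/(24 w)` have no
component of an autonomous subset which is a chain with `288 w²` elements.

What was known: if an element of a poset is incomparable to `K(ε) = exp (C log (2/ε)³ / ε⁴)` elements
then `δ(P) ≥ 1/2 - ε` (library, `ManyIncomparable`); for the elements of `D` this gives the rate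
`(log log k)^(3/4) / (log k)^(1/4)` instead of `k^(-1/2)`.

**Proof.**  Let `N(y)` be the number of the elements of the chain before the element `y` of `D` in a
random linear extension and `β = 1/√(2 k)`.  If `δ(P) < 1/2 - β` there is for each `y` an `i` with
`P(N(y) ≥ i) ≥ 1/2 + β` and `P(N(y) ≥ i + 1) < 1/2 - β`, so `P(N(y) = i) > 2 β`.  Given the position of
`y` among the elements of `D`, the distribution of `N(y)` is a mixture of binomial distributions with
`k` trials (`D_compare`), and by the inequality of the arithmetic and geometric mean and Stirling's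
formula `P(N(y) = i) ≤ (e/(2π)) √(k/(i (k - i))) ≤ 2 β` for `a ≤ i ≤ k - a`, `a = ⌊(k + 1)/4⌋`
(`D_rate`).  So `i < a` or `i > k - a`, and `P(N(y) < a) + P(N(y) > k - a) ≥ 1/2 + β` for ALL `y`.  The
sum over the `y` in `D` of the left hand side is the mean number of elements of `D` in `2 a` of the
`k + 1` gaps of the chain, which is `2 a |D| / (k + 1) ≤ |D| / 2`, a contradiction.
-/

set_option autoImplicit false

namespace Pool.Agent.Results.MP_c890a7_co.ChainComponents

open Pool.Agent.H13R3.WB (balance)
open Pool.Agent.H931R3.Bal (Autonomous)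

theorem result :
    ∀ δ : ℕ → ℝ,
      (∀ w : ℕ, δ w = sInf {d : ℝ | ∃ (n : ℕ) (r : Fin n → Fin n → Prop),
          (∀ a, r a a) ∧ (∀ a b c, r a b → r b c → r a c) ∧
          (∀ a b, r a b → r b a → a = b) ∧
          (∃ s : Finset (Fin n), s.card = w ∧ ∀ a ∈ s, ∀ b ∈ s, a ≠ b → ¬ r a b) ∧
          (∀ s : Finset (Fin n), (∀ a ∈ s, ∀ b ∈ s, a ≠ b → ¬ r a b) → s.card ≤ w) ∧
          d = sSup {t : ℝ | ∃ x y : Fin n, ¬ r x y ∧ ¬ r y x ∧
            t = min
              ((Nat.card {σ : Equiv.Perm (Fin n) //
                  (∀ a b, r a b → σ a ≤ σ b) ∧ σ x < σ y} : ℝ) /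
                (Nat.card {σ : Equiv.Perm (Fin n) // ∀ a b, r a b → σ a ≤ σ b} : ℝ))
              ((Nat.card {σ : Equiv.Perm (Fin n) //
                  (∀ a b, r a b → σ a ≤ σ b) ∧ σ y < σ x} : ℝ) /
                (Nat.card {σ : Equiv.Perm (Fin n) // ∀ a b, r a b → σ a ≤ σ b} : ℝ))}}) →
    ∀ (P : Type) [Fintype P] [PartialOrder P] (M C : Set P),
      Autonomous M → C ⊆ M → C.Nonempty → (M \ C).Nonempty → IsChain (· ≤ ·) C →
      (∀ x ∈ C, ∀ y ∈ M \ C, ¬ x ≤ y ∧ ¬ y ≤ x) →
      1 / 2 - 1 / Real.sqrt (2 * Nat.card C) ≤ balance P ∧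
      ∀ w : ℕ, 1 ≤ w → 288 * w ^ 2 ≤ Nat.card C → δ w + 1 / (24 * w) ≤ balance P := by
  intro δ hδ P _ _ M C hM hCM hC hD hch hinc
  refine ⟨Pool.Agent.H175.IE.main_rate P M C hM hCM hC hD hch hinc, ?_⟩
  intro w hw hcard
  exact Pool.Agent.H175.IE.main_step P M C hM hCM hC hD hch hinc w hw hcard (δ w)
    (Pool.Agent.Results.MP_c890a7_co.BalanceUpperBound.result δ hδ w hw)

end Pool.Agent.Results.MP_c890a7_co.ChainComponents
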