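import Mathlib
import Pool.Agent.H3.Her.Cycles

/-!
# Hereditary classes of posets: when do the balance constants accumulate only at one half?

`Zig m` is the poset with the elements `0, …, m - 1` and `i < j` if and only if `i + 2 ≤ j`; its
incomparability graph is a path. Let `C` be a hereditary class of finite posets (closed under subposets
and isomorphism).

* The following are equivalent: `C` omits one of the posets `Zig m`; the balance constant of the
  indecomposable members (those which are not a direct sum of two nonempty posets) tends to one half as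
  the number of elements tends to infinity; below every `c < 1 / 2` there are only finitely many balance
  constants of members of `C`; there are only finitely many below `2 / 5`.
  (The conjecture of Kahn and Saks concerns the width; here it is the number of elements.)
* `Zig m` is indecomposable and its balance constant is `fib (m - 1) / fib (m + 1)`, which tends to
  `(3 - √5) / 2 = 0.3819…`. So for a hereditary class the least possible accumulation point other than
  one half, if there is another one, is at most this number.
* Every indecomposable poset with more than `m · exp (B log(2/ε)³ / ε⁴)` elements contains `Zig m` or has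
  balance constant at least `1 / 2 - ε`. So an indecomposable poset with `n` elements whose balance
  constant is less than `1 / 2 - ε` contains a zigzag with at least `c(ε) n` elements, in particular a
  counterexample to the conjecture `δ ≥ 1 / 3` does (`ε = 1 / 6`).
* If `C` omits `Zig m` then there is a gap above every `c < 1 / 2` (in particular above `1 / 3`), and the
  least balance constant of the members of width `w`, if it is less than `1 / 2 - ε`, is attained by an
  indecomposable member with at most `m · exp (B log(2/ε)³ / ε⁴)` elements; so for such a class each of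
  the inequalities of the problem between the minimal balance constants is decided by finitely many
  posets.
* This applies with `m = 6 k` to the class of the posets without `k` diamonds (`Diamonds k`), which
  contains all posets whose cover graph does not have `k` pairwise vertex-disjoint cycles; for `k = 1`
  these are the posets in which all intervals are chains, among them all posets whose cover graph is a
  forest. So an indecomposable poset with more than `6 k · exp (B log(2/ε)³ / ε⁴)` elements and with
  balance constant less than `1 / 2 - ε` has `k` vertex-disjoint cycles in its cover graph.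

The proof that `C` omits `Zig m` implies the other properties uses the starting results on thin posets
and on incomparability graphs of bounded diameter (`DiscreteSpectrum`). The converse and the structure
of the induced paths are new. The modules `Refl` (helper81) and `Rec` (helper113) prove that the end
pair is inverted most often, and the recursion for its probability.
-/

set_option autoImplicit false

namespace Pool.Agent.Results.MP_c890a7_co.HereditaryClasses

open Pool.Agent.H13R3.WB Pool.Agent.H931R3.Bal Pool.Agent.H3.Her

/-- the balance constants of the members of the class which are at most `c` -/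
def Values (C : ∀ (P : Type) [PartialOrder P], Prop) (c : ℝ) : Set ℝ :=
  {v : ℝ | v ≤ c ∧ ∃ (P : Type) (_ : Fintype P) (_ : PartialOrder P), C P ∧ balance P = v}

theorem result :
    -- the characterization
    (∀ C : ∀ (P : Type) [PartialOrder P], Prop, Hereditary C → List.TFAE [
      ∃ m : ℕ, ¬ C (Zig m),
      ∀ c : ℝ, c < 1 / 2 → ∃ N : ℕ, ∀ (P : Type) [Fintype P] [PartialOrder P], C P →
        Indecomposable P → N < Fintype.card P → c < balance P,
      ∀ c : ℝ, c < 1 / 2 → (Values C c).Finite,
      (Values C (2 / 5)).Finite]) ∧
    -- the zigzag posets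
    (∀ m : ℕ, 3 ≤ m → Indecomposable (Zig m) ∧ Fintype.card (Zig m) = m ∧
      balance (Zig m) = (Nat.fib (m - 1) : ℝ) / Nat.fib (m + 1)) ∧
    -- gaps
    (∀ C : ∀ (P : Type) [PartialOrder P], Prop, Hereditary C → (∃ m : ℕ, ¬ C (Zig m)) →
      ∀ c : ℝ, c < 1 / 2 → ∃ ε : ℝ, 0 < ε ∧ ∀ (P : Type) [Fintype P] [PartialOrder P], C P →
        balance P ≤ c ∨ c + ε ≤ balance P) ∧
    -- explicit bounds
    (∃ B : ℝ, 0 < B ∧ ∀ ε : ℝ, 0 < ε → ε ≤ 1 / 2 →
      (∀ (P : Type) [Fintype P] [PartialOrder P], Indecomposable P → ∀ m : ℕ,
        m * ⌈Real.exp (B * Real.log (2 / ε) ^ 3 / ε ^ 4)⌉₊ < Fintype.card P →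
          Nonempty (Zig m ↪o P) ∨ 1 / 2 - ε ≤ balance P) ∧
      (∀ (P : Type) [Fintype P] [PartialOrder P], Indecomposable P → ∀ k : ℕ,
        6 * k * ⌈Real.exp (B * Real.log (2 / ε) ^ 3 / ε ^ 4)⌉₊ < Fintype.card P →
          DisjointCycles (SimpleGraph.hasse P) k ∨ 1 / 2 - ε ≤ balance P) ∧
      ∀ C : ∀ (P : Type) [PartialOrder P], Prop, Hereditary C → ∀ m : ℕ, ¬ C (Zig m) →
        ∀ (P : Type) [Fintype P] [PartialOrder P], C P → ∀ w : ℕ, 1 ≤ w → HasWidth P w →
          balance P < 1 / 2 - ε →
          ∃ (P₀ : Type) (_ : Fintype P₀) (_ : PartialOrder P₀), C P₀ ∧ HasWidth P₀ w ∧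
            Indecomposable P₀ ∧
            Fintype.card P₀ ≤ m * ⌈Real.exp (B * Real.log (2 / ε) ^ 3 / ε ^ 4)⌉₊ ∧
            ∀ (Q : Type) [Fintype Q] [PartialOrder Q], C Q → HasWidth Q w →
              balance P₀ ≤ balance Q) ∧
    -- examples
    (∀ k : ℕ, Hereditary (fun P _ => ¬ Diamonds k P) ∧ Diamonds k (Zig (6 * k)) ∧
      ∀ (P : Type) [Finite P] [PartialOrder P], Diamonds k P →
        DisjointCycles (SimpleGraph.hasse P) k) := by
  classical
  obtain ⟨B, hB, hG⟩ := Pool.Agent.H3.Her.exists_good
  refine ⟨fun C hC => ?_, fun m hm => ⟨Zig.indecomposable, Zig.card, bal_fib hm⟩, ?_,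
    ⟨B, hB, fun ε h1 h2 => ⟨fun P _ _ hI m hc => ?_, fun P _ _ hI k hc => ?_,
      fun C hC m hm P _ _ hP w hw hPw hb => width_min_lin hG hC hm h1 h2 P w hw hP hPw hb⟩⟩,
    fun k => ⟨hereditary_diamonds k, zig_diamonds k, fun P _ _ h => h.disjointCycles⟩⟩
  · tfae_have 1 → 2 := by
      rintro ⟨m, hm⟩ c hc
      set ε : ℝ := min (1 / 2) ((1 / 2 - c) / 2) with hε
      have hε0 : 0 < ε := lt_min (by norm_num) (by linarith)
      have hεc : c < 1 / 2 - ε := by
        have := min_le_right (1 / 2) ((1 / 2 - c) / 2)
        rw [← hε] at this
        linarith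
      exact ⟨KK B ε ^ m, fun P _ _ hP hI hcard =>
        hεc.trans_le (size_bound hG hC hm hε0 (min_le_left _ _) P hP hI hcard)⟩
    tfae_have 2 → 1 := by
      intro h
      by_contra hcon
      push Not at hcon
      obtain ⟨N, hN⟩ := h (2 / 5) (by norm_num)
      have h1 := hN (Zig (N + 3)) (hcon _) Zig.indecomposable (by rw [Zig.card]; omega)
      have h2 := Zig.balance_le (m := N + 3) (by omega)
      linarith
    tfae_have 1 → 3 := by
      rintro ⟨m, hm⟩ c hc
      exact spectrum hC hm c hc
    tfae_have 3 → 4 := fun h => h (2 / 5) (by norm_num)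
    tfae_have 4 → 1 := by
      intro h
      by_contra hcon
      push Not at hcon
      exact infinite_of_all refl recq hcon h
    tfae_finish
  · rintro C hC ⟨m, hm⟩ c hc
    obtain ⟨ε, h1, h2⟩ := gap_above (S := {v : ℝ | ∃ (P : Type) (_ : Fintype P)
      (_ : PartialOrder P), C P ∧ balance P = v}) (fun c' hc' => spectrum hC hm c' hc') c hc
    exact ⟨ε, h1, fun P _ _ hP => h2 _ ⟨P, inferInstance, inferInstance, hP, rfl⟩⟩
  · by_cases hb : 1 / 2 - ε ≤ balance P
    · exact Or.inr hb
    · exact Or.inl (long_zig hG h1 h2 P hI hc (not_le.1 hb))
  · by_cases hb : 1 / 2 - ε ≤ balance P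
    · exact Or.inr hb
    · exact Or.inl (cycles_of_small hG h1 h2 P hI hc (not_le.1 hb))

end Pool.Agent.Results.MP_c890a7_co.HereditaryClasses
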