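import Pool.Agent.H88.BalW3
import Pool.Agent.H88.BalW4
import Pool.Agent.H88.BalW5
import Pool.Agent.H88.BalW6
import Pool.Agent.H88.BalW7

/-! Upper bounds for the minimal balance constants of widths 3 to 7, from explicit posets. -/

namespace Pool.Agent.Results.MP_c890a7_co.SmallWidths

open Pool.Agent.H88.BalC

/-- Upper bounds for the infima of the balance constants of the posets of widths 3 to 7. -/
theorem result :
    ∀ δ : ℕ → ℝ,
      (∀ w : ℕ, δ w = sInf {d : ℝ | ∃ (n : ℕ) (r : Fin n → Fin n → Prop),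
          (∀ a, r a a) ∧ (∀ a b c, r a b → r b c → r a c) ∧
          (∀ a b, r a b → r b a → a = b) ∧
          (∃ s : Finset (Fin n), s.card = w ∧ ∀ a ∈ s, ∀ b ∈ s, a ≠ b → ¬ r a b) ∧
          (∀ s : Finset (Fin n), (∀ a ∈ s, ∀ b ∈ s, a ≠ b → ¬ r a b) → s.card ≤ w) ∧
          d = sSup {t : ℝ | ∃ x y : Fin n, ¬ r x y ∧ ¬ r y x ∧
            t = min
              ((Nat.card {σ : Equiv.Perm (Fin n) //
                  (∀ a b, r a b → σ a ≤ σ b) ∧ σ x < σ y} : ℝ) /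
                (Nat.card {σ : Equiv.Perm (Fin n) // ∀ a b, r a b → σ a ≤ σ b} : ℝ))
              ((Nat.card {σ : Equiv.Perm (Fin n) //
                  (∀ a b, r a b → σ a ≤ σ b) ∧ σ y < σ x} : ℝ) /
                (Nat.card {σ : Equiv.Perm (Fin n) // ∀ a b, r a b → σ a ≤ σ b} : ℝ))}}) →
      δ 3 ≤ 6 / 17 ∧ δ 4 ≤ 14106798 / 38818867 ∧ δ 5 ≤ 2694115 / 7095472 ∧
      δ 6 ≤ 932684008 / 2354638423 ∧ δ 7 ≤ 10050687200 / 24588114387 := by
  intro δ hδ
  have h : ∀ w : ℕ, ∀ b : ℝ, b ∈ Bset w → δ w ≤ b := fun w b hb => delta_le δ hδ w b hb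
  refine ⟨?_, h 4 _ mem4, h 5 _ mem5, ?_, h 7 _ mem7⟩
  · exact (h 3 _ mem3).trans (by norm_num)
  · exact (h 6 _ mem6).trans (by norm_num)

end Pool.Agent.Results.MP_c890a7_co.SmallWidths
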