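import Mathlib
import Pool.Agent.H552.TH.Four

/-!
# Minimal balance constants of given width for posets with few incomparabilities

Let `BalSet K w` be the set of the balance constants of the finite nonempty posets of width `w` in which
every element is incomparable to at most `K` others.  The infima `δ_w` of these sets satisfy
`δ_1 = 0 < δ_2 = 1/3 < 69/200 ≤ δ_3 ≤ 4/11 < δ_4 = 1/2` if `K = 3`, and
`δ_1 = 0 < δ_2 = 1/3 < 69/200 ≤ δ_3 ≤ 4/11 < 3/8 ≤ δ_4 ≤ δ_5 = 1/2` if `K = 4`, and there are no such posets of
larger width.  So the chain of inequalities of the problem holds in the class for `K = 3`, and for `K = 4`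
with the possible exception of `δ_4 < δ_5`.

The inequality `69/200 ≤ δ_3` is proved by a search over bottom segments which is verified by the kernel
(`Main`); `4/11` is the balance constant of a poset with five elements; if there is an antichain with
`K + 1` elements, then all other elements are comparable to its elements, and the transposition of two
of them is an automorphism.  The bound `3/8` (`Four`): an element of an antichain with four elements has at
most one incomparable element outside.  If this is the same for two of them, they can be exchanged.
Otherwise two of them, `a` and `b`, have no such element below the antichain (or none above it); exchanging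
them shows that the probabilities of `a < b` and of `b < a` differ by at most the probability of `z < b`
(or `z < a`), where `z` is the element incomparable to `b` above the antichain.  Then `z` is directly before `b`,
and `b` can be moved down over `z` and the last two of the three other elements of the antichain.  So this
probability is at most `1/4`.
-/

set_option autoImplicit false

namespace Pool.Agent.Results.MP_c890a7_co.ThinPosets

open Pool.Agent.H13R3.WB Pool.Agent.H552.TH

theorem result :
    (∀ K : ℕ, K = 3 ∨ K = 4 →
      sInf (BalSet K 1) = 0 ∧ sInf (BalSet K 2) = 1 / 3 ∧ 69 / 200 ≤ sInf (BalSet K 3) ∧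
      sInf (BalSet K 3) ≤ 4 / 11 ∧ sInf (BalSet K (K + 1)) = 1 / 2 ∧
      ∀ w, K + 1 < w → BalSet K w = ∅) ∧
    3 / 8 ≤ sInf (BalSet 4 4) ∧ sInf (BalSet 4 4) ≤ 1 / 2 := by
  refine ⟨fun K hK => ?_, bal_four⟩
  have h3 : 3 ≤ K := by omega
  have h4 : K ≤ 4 := by omega
  exact ⟨by rw [bal_one, csInf_singleton], bal_two h3 h4,
    bal_mid h4 le_rfl ⟨_, An_mem (by omega) (by omega)⟩, bal_three h3 h4,
    by rw [bal_top (by omega), csInf_singleton], fun w hw => bal_empty hw⟩

end Pool.Agent.Results.MP_c890a7_co.ThinPosets
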